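import Pool.Agent.Lib.MP_ea1188_al.KG.Iface

/-! # Assembly of parts (A) and (C); MP_ea1188_al, helper60. -/

set_option autoImplicit false

namespace KG

open Matrix

lemma lft_of {Γ R : Type} [Group Γ] [Ring R] [Algebra (ZMod 2) R] (ρ : Γ →* R) (g : Γ) :
    lft ρ (MonoidAlgebra.of (ZMod 2) Γ g) = ρ g := by
  simp [lft]

lemma ringHom_ext2 {Γ R : Type} [Group Γ] [Ring R]
    {f g : MonoidAlgebra (ZMod 2) Γ →+* R}
    (h : ∀ x : Γ, f (MonoidAlgebra.of (ZMod 2) Γ x) = g (MonoidAlgebra.of (ZMod 2) Γ x)) :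
    f = g := by
  refine MonoidAlgebra.ringHom_ext' ?_ ?_
  · exact Subsingleton.elim _ _
  · exact MonoidHom.ext fun x => h x

lemma lft_comp {Γ Γ' R : Type} [Group Γ] [Group Γ'] [Ring R] [Algebra (ZMod 2) R]
    (ρ : Γ →* R) (f : Γ' →* Γ) :
    lft (ρ.comp f) = (lft ρ).comp (lft ((MonoidAlgebra.of (ZMod 2) Γ).comp f)) := by
  apply ringHom_ext2
  intro x
  simp only [RingHom.comp_apply, lft_of, MonoidHom.comp_apply]

lemma Rel.comp {κ : Kind} {R : Type} [Ring R] [Algebra (ZMod 2) R] {T : KT κ R}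
    {Γ Γ' : Type} [Group Γ] [Group Γ'] {ρ ρ' : Γ →* R} (h : Rel T ρ ρ') (f : Γ' →* Γ) :
    Rel T (ρ.comp f) (ρ'.comp f) := by
  intro ι _ _ x hx
  obtain ⟨M, hM⟩ := h ι (x.map (lft ((MonoidAlgebra.of (ZMod 2) Γ).comp f))) (P_mapMatrix _ hx)
  refine ⟨M, ?_⟩
  rw [lft_comp ρ f, lft_comp ρ' f]
  simpa only [Matrix.map_map, RingHom.coe_comp] using hM

lemma Tame.of_equiv {κ : Kind} {R : Type} [Ring R] [Algebra (ZMod 2) R] {T : KT κ R}
    {Γ Γ' : Type} [Group Γ] [Group Γ'] (e : Γ' ≃* Γ) {ρ : Γ →* R}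
    (h : Tame T (ρ.comp e.toMonoidHom)) : Tame T ρ := by
  have h2 := Rel.comp h e.symm.toMonoidHom
  have h3 : (ρ.comp e.toMonoidHom).comp e.symm.toMonoidHom = ρ := by
    ext x
    simp
  have h4 : (1 : Γ' →* R).comp e.symm.toMonoidHom = 1 := by
    ext x
    simp
  rw [h3, h4] at h2
  exact h2

lemma nilp_of_pow {H : Type} [Group H] {g : H} (h : g ^ 8 = 1) :
    IsNilpotent (MonoidAlgebra.of (ZMod 2) H g - 1) := by
  refine ⟨8, ?_⟩
  have hc : Commute (MonoidAlgebra.of (ZMod 2) H g) 1 := Commute.one_right _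
  haveI : CharP (MonoidAlgebra (ZMod 2) H) 2 := by
    refine (CharP.charP_iff_prime_eq_zero Nat.prime_two).2 ?_
    have := map_natCast (algebraMap (ZMod 2) (MonoidAlgebra (ZMod 2) H)) 2
    rw [← this]
    have h2 : ((2 : ℕ) : ZMod 2) = 0 := by decide
    rw [h2, map_zero]
  have h1 := sub_pow_char_pow_of_commute (p := 2) (n := 3) hc
  rw [show 2 ^ 3 = 8 from rfl] at h1
  rw [h1, one_pow, ← map_pow, h, map_one, sub_self]

lemma UG_of_Ord8 {H : Type} [Group H] : ∀ (n : ℕ) (ρ : PT n →* H), Ord8 n ρ →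
    UG n ((MonoidAlgebra.of (ZMod 2) H).comp ρ)
  | 0, ρ, h => fun i => nilp_of_pow (h i)
  | n + 1, ρ, h => ⟨UG_of_Ord8 n _ h.1, UG_of_Ord8 n _ h.2⟩

lemma Ord8_of_injective {H H' : Type} [Group H] [Group H'] (f : H →* H')
    (hf : Function.Injective f) : ∀ (n : ℕ) (ρ : PT n →* H), Ord8 n (f.comp ρ) → Ord8 n ρ
  | 0, ρ, h => fun i => hf (by rw [map_pow, map_one]; exact h i)
  | n + 1, ρ, h => ⟨Ord8_of_injective f hf n _ h.1, Ord8_of_injective f hf n _ h.2⟩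

lemma tame_sub (hFree : FreeS) (hChain : ChainS) {κ : Kind} (T : KT κ F2G) {V : Type} [Group V]
    (Γ : Subgroup V) (n : ℕ) (i0 : PT n →* V) (hinj : Function.Injective i0)
    (hS : i0.range ≤ Γ) (hN1 : i0.range.Normal) (hN2 : i0.range.FiniteIndex)
    (hN3 : ∀ x : V, ∃ k : ℕ, x ^ (2 ^ k) ∈ i0.range) (r : Γ →* Grig)
    (h8 : ∀ j : PT n →* Γ, (∀ z, (j z : V) = i0 z) → Ord8 n (r.comp j)) :
    Tame T ((MonoidAlgebra.of (ZMod 2) Grig).comp r) := by
  set N : Subgroup Γ := i0.range.subgroupOf Γ with hN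
  have hNn : N.Normal := hN1.subgroupOf Γ
  have hNf : N.FiniteIndex := by
    haveI := hN2
    infer_instance
  have hNp : ∀ z : Γ, ∃ k : ℕ, z ^ (2 ^ k) ∈ N := by
    intro z
    obtain ⟨k, hk⟩ := hN3 z.1
    exact ⟨k, by rw [hN, Subgroup.mem_subgroupOf]; exact hk⟩
  let i1 : PT n →* Γ := i0.codRestrict Γ fun z => hS ⟨z, rfl⟩
  let i2 : PT n →* N := i1.codRestrict N fun z => by
    rw [hN, Subgroup.mem_subgroupOf]
    exact ⟨z, rfl⟩
  have hi2 : Function.Bijective i2 := by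
    constructor
    · intro z z' h
      apply hinj
      exact congrArg (fun t => t.1.1) h
    · rintro ⟨⟨w, hw⟩, hw2⟩
      rw [hN, Subgroup.mem_subgroupOf] at hw2
      obtain ⟨z, hz⟩ := hw2
      exact ⟨z, Subtype.ext (Subtype.ext hz)⟩
  let e : PT n ≃* N := MulEquiv.ofBijective i2 hi2
  apply hChain κ F2G T Γ N hNn hNf hNp
  apply Tame.of_equiv e
  apply hFree
  exact UG_of_Ord8 n _ (h8 i1 fun z => rfl)

theorem mainAC (hFree : FreeS) (hChain : ChainS) (hOrd : OrdS) (hNorm : PNormS) (hSub : PSubS)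
    (hLift : LiftS) : MainACS := by
  intro κ T ι _ _ x hx
  obtain ⟨n, y, hy, hyx⟩ := hLift κ ι x hx
  obtain ⟨hN1, hN2, hN3⟩ := hNorm n
  obtain ⟨hS, hinj⟩ := hSub n
  have hT : Tame T ((MonoidAlgebra.of (ZMod 2) Grig).comp (rhoN n)) := by
    apply tame_sub hFree hChain T (psiN n).range n (iPT n) hinj hS hN1 hN2 hN3 (rhoN n)
    intro j hj
    apply Ord8_of_injective Grig.subtype Subtype.val_injective
    have h9 : Grig.subtype.comp ((rhoN n).comp j) = (alN n).comp (iPT n) := by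
      refine MonoidHom.ext fun z => ?_
      show alN n (j z) = alN n (iPT n z)
      rw [hj]
    rw [h9]
    exact hOrd n
  obtain ⟨M, hM⟩ := hT ι y hy
  refine ⟨M, ?_⟩
  rw [hyx] at hM
  rw [hM]
  congr 2
  rw [← hyx]
  ext i j
  simp only [Matrix.map_apply]
  have h5 : lft (1 : (psiN n).range →* F2G) = (algebraMap (ZMod 2) F2G).comp
      ((lft (1 : Grig →* ZMod 2)).comp (lft ((MonoidAlgebra.of (ZMod 2) Grig).comp (rhoN n)))) := by
    apply ringHom_ext2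
    intro z
    simp only [RingHom.comp_apply, lft_of, MonoidHom.one_apply, MonoidHom.comp_apply, map_one]
  rw [h5]
  rfl

end KG
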