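import Mathlib

/-! # K-theory of `F₂[Grigorchuk group]`: definitions (MP_ea1188_al, helper60). -/

set_option autoImplicit false

namespace KG

open Matrix

/-! ## The group `K₁` of a ring -/

section K1

variable {R : Type} [Ring R]

/-- The standard inclusion `M ↦ diag(M, 1)` of `n × n` matrices into `m × m` matrices, `n ≤ m`. -/
def stab {n m : ℕ} (_h : n ≤ m) (M : Matrix (Fin n) (Fin n) R) : Matrix (Fin m) (Fin m) R :=
  fun i j => if hi : (i : ℕ) < n ∧ (j : ℕ) < n then M ⟨i, hi.1⟩ ⟨j, hi.2⟩ else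
    if i = j then 1 else 0

lemma stab_eq {n m : ℕ} (h : n ≤ m) (M : Matrix (Fin n) (Fin n) R) :
    stab h M = Matrix.reindex (finSumFinEquiv.trans (finCongr (Nat.add_sub_cancel' h)))
      (finSumFinEquiv.trans (finCongr (Nat.add_sub_cancel' h)))
      (fromBlocks M 0 0 (1 : Matrix (Fin (m - n)) (Fin (m - n)) R)) := by
  ext i j
  obtain ⟨i, rfl⟩ := (finSumFinEquiv.trans (finCongr (Nat.add_sub_cancel' h))).surjective i
  obtain ⟨j, rfl⟩ := (finSumFinEquiv.trans (finCongr (Nat.add_sub_cancel' h))).surjective j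
  rcases i with i | i <;> rcases j with j | j <;>
    simp [stab, Matrix.one_apply, Fin.ext_iff] <;> omega

lemma stab_one {n m : ℕ} (h : n ≤ m) : stab h (1 : Matrix (Fin n) (Fin n) R) = 1 := by
  ext i j
  by_cases hi : (i : ℕ) < n ∧ (j : ℕ) < n
  · simp [stab, hi, Matrix.one_apply, Fin.ext_iff]
  · simp [stab, hi, Matrix.one_apply]

lemma stab_mul {n m : ℕ} (h : n ≤ m) (M N : Matrix (Fin n) (Fin n) R) :
    stab h (M * N) = stab h M * stab h N := by
  rw [stab_eq, stab_eq, stab_eq, Matrix.reindex_apply, Matrix.reindex_apply, Matrix.reindex_apply,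
    Matrix.submatrix_mul_equiv, Matrix.fromBlocks_multiply]
  simp

lemma stab_refl {n : ℕ} (M : Matrix (Fin n) (Fin n) R) : stab (le_refl n) M = M := by
  ext i j
  simp [stab]

lemma stab_trans {n m k : ℕ} (h : n ≤ m) (h' : m ≤ k) (M : Matrix (Fin n) (Fin n) R) :
    stab h' (stab h M) = stab (h.trans h') M := by
  ext i j
  by_cases hi : (i : ℕ) < n ∧ (j : ℕ) < n
  · have : (i : ℕ) < m ∧ (j : ℕ) < m := ⟨by omega, by omega⟩
    simp [stab, hi, this]
  · by_cases hm : (i : ℕ) < m ∧ (j : ℕ) < m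
    · simp [stab, hi, hm, Fin.ext_iff]
    · simp [stab, hi, hm]

/-- `GL_n(R) → GL_m(R)`, `u ↦ diag(u, 1)`. -/
def stabHom (R : Type) [Ring R] (n m : ℕ) (h : n ≤ m) : GL (Fin n) R →* GL (Fin m) R where
  toFun u := ⟨stab h u.val, stab h u.inv, by rw [← stab_mul, u.val_inv, stab_one],
    by rw [← stab_mul, u.inv_val, stab_one]⟩
  map_one' := Units.ext (stab_one h)
  map_mul' u v := Units.ext (stab_mul h u.val v.val)

instance : DirectedSystem (fun n : ℕ => GL (Fin n) R) (fun n m h => stabHom R n m h) where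
  map_self n u := Units.ext (stab_refl u.val)
  map_map n m k h h' u := Units.ext (stab_trans h h' u.val)

/-- `GL(R)`, the union (direct limit) of the groups `GL_n(R)`. -/
abbrev GLinf (R : Type) [Ring R] : Type :=
  DirectLimit (fun n : ℕ => GL (Fin n) R) (fun n m h => stabHom R n m h)

/-- `K₁(R) = GL(R) / [GL(R), GL(R)]`. -/
abbrev K1 (R : Type) [Ring R] : Type := Abelianization (GLinf R)

end K1

/-! ## Wreath recursion -/

/-- The wreath product `A ≀ C₂`: the element `(l, r) σ^s`. -/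
@[ext] structure Wr (A : Type) where
  l : A
  r : A
  s : Bool

namespace Wr

variable {A B : Type} [Group A] [Group B]

instance : One (Wr A) := ⟨⟨1, 1, false⟩⟩
instance : Mul (Wr A) :=
  ⟨fun g h => ⟨g.l * (if g.s then h.r else h.l), g.r * (if g.s then h.l else h.r), xor g.s h.s⟩⟩
instance : Inv (Wr A) :=
  ⟨fun g => if g.s then ⟨g.r⁻¹, g.l⁻¹, true⟩ else ⟨g.l⁻¹, g.r⁻¹, false⟩⟩

@[simp] lemma one_l : (1 : Wr A).l = 1 := rfl
@[simp] lemma one_r : (1 : Wr A).r = 1 := rfl
@[simp] lemma one_s : (1 : Wr A).s = false := rfl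
@[simp] lemma mul_l (g h : Wr A) : (g * h).l = g.l * (if g.s then h.r else h.l) := rfl
@[simp] lemma mul_r (g h : Wr A) : (g * h).r = g.r * (if g.s then h.l else h.r) := rfl
@[simp] lemma mul_s (g h : Wr A) : (g * h).s = xor g.s h.s := rfl
lemma inv_def (g : Wr A) :
    g⁻¹ = if g.s then ⟨g.r⁻¹, g.l⁻¹, true⟩ else ⟨g.l⁻¹, g.r⁻¹, false⟩ := rfl

instance : Group (Wr A) where
  mul_assoc g h k := by
    rcases g with ⟨a, b, _ | _⟩ <;> rcases h with ⟨c, d, _ | _⟩ <;> rcases k with ⟨e, f, _ | _⟩ <;>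
      ext <;> simp [mul_assoc]
  one_mul g := by ext <;> simp
  mul_one g := by rcases g with ⟨a, b, _ | _⟩ <;> ext <;> simp
  inv_mul_cancel g := by rcases g with ⟨a, b, _ | _⟩ <;> ext <;> simp [inv_def]

@[simp] lemma inv_s (g : Wr A) : (g⁻¹).s = g.s := by
  rcases g with ⟨a, b, _ | _⟩ <;> simp [inv_def]

/-- Functoriality. -/
def map (f : A →* B) : Wr A →* Wr B where
  toFun g := ⟨f g.l, f g.r, g.s⟩
  map_one' := by ext <;> simp
  map_mul' g h := by rcases g with ⟨a, b, _ | _⟩ <;> ext <;> simp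

@[simp] lemma map_l (f : A →* B) (g : Wr A) : (map f g).l = f g.l := rfl
@[simp] lemma map_r (f : A →* B) (g : Wr A) : (map f g).r = f g.r := rfl
@[simp] lemma map_s (f : A →* B) (g : Wr A) : (map f g).s = g.s := rfl

/-- `A → A ≀ C₂`, `x ↦ (x, 1)`. -/
def inl : A →* Wr A where
  toFun x := ⟨x, 1, false⟩
  map_one' := rfl
  map_mul' x y := by ext <;> simp

/-- `A → A ≀ C₂`, `x ↦ (1, x)`. -/
def inr : A →* Wr A where
  toFun x := ⟨1, x, false⟩
  map_one' := rfl
  map_mul' x y := by ext <;> simp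

@[simp] lemma inl_l (x : A) : (inl x).l = x := rfl
@[simp] lemma inl_r (x : A) : (inl x).r = 1 := rfl
@[simp] lemma inl_s (x : A) : (inl x).s = false := rfl
@[simp] lemma inr_l (x : A) : (inr x).l = 1 := rfl
@[simp] lemma inr_r (x : A) : (inr x).r = x := rfl
@[simp] lemma inr_s (x : A) : (inr x).s = false := rfl

/-- The function on words given by an element of `A ≀ C₂` when `A` acts on words. -/
def actFun (f : A →* Equiv.Perm (List Bool)) (g : Wr A) : List Bool → List Bool
  | [] => []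
  | c :: w => xor c g.s :: f (if xor c g.s then g.r else g.l) w

lemma actFun_mul (f : A →* Equiv.Perm (List Bool)) (g h : Wr A) (w : List Bool) :
    actFun f (g * h) w = actFun f g (actFun f h w) := by
  rcases w with _ | ⟨c, w⟩
  · rfl
  · rcases g with ⟨a, b, _ | _⟩ <;> rcases h with ⟨c', d, _ | _⟩ <;> cases c <;> simp [actFun]

lemma actFun_one (f : A →* Equiv.Perm (List Bool)) (w : List Bool) :
    actFun f (1 : Wr A) w = w := by
  rcases w with _ | ⟨c, w⟩
  · rfl
  · cases c <;> simp [actFun]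

/-- `A ≀ C₂` acts on binary words if `A` does. -/
def act (f : A →* Equiv.Perm (List Bool)) : Wr A →* Equiv.Perm (List Bool) where
  toFun g :=
    { toFun := actFun f g
      invFun := actFun f g⁻¹
      left_inv := fun w => by rw [← actFun_mul, inv_mul_cancel, actFun_one]
      right_inv := fun w => by rw [← actFun_mul, mul_inv_cancel, actFun_one] }
  map_one' := Equiv.ext fun w => actFun_one f w
  map_mul' g h := Equiv.ext fun w => actFun_mul f g h w

@[simp] lemma act_nil (f : A →* Equiv.Perm (List Bool)) (g : Wr A) : act f g [] = [] := rfl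
@[simp] lemma act_cons (f : A →* Equiv.Perm (List Bool)) (g : Wr A) (c : Bool) (w : List Bool) :
    act f g (c :: w) = xor c g.s :: f (if xor c g.s then g.r else g.l) w := rfl

end Wr

/-! ## The first Grigorchuk group -/

/-- `a(0w) = 1w`, `a(1w) = 0w`. -/
def aF : List Bool → List Bool
  | [] => []
  | c :: w => (!c) :: w

/-- The functions `b` (`i = 0`), `c` (`i = 1`), `d` (`i = 2`):
`b(0w) = 0 a(w)`, `b(1w) = 1 c(w)`, `c(0w) = 0 a(w)`, `c(1w) = 1 d(w)`, `d(0w) = 0w`,
`d(1w) = 1 b(w)`. -/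
def vF : Fin 3 → List Bool → List Bool
  | _, [] => []
  | 0, false :: w => false :: aF w
  | 0, true :: w => true :: vF 1 w
  | 1, false :: w => false :: aF w
  | 1, true :: w => true :: vF 2 w
  | 2, false :: w => false :: w
  | 2, true :: w => true :: vF 0 w

lemma aF_aF (w : List Bool) : aF (aF w) = w := by
  rcases w with _ | ⟨c, w⟩ <;> simp [aF]

lemma vF_vF (w : List Bool) : ∀ i, vF i (vF i w) = w := by
  induction w with
  | nil => intro i; fin_cases i <;> rfl
  | cons c w ih => intro i; fin_cases i <;> cases c <;> simp [vF, aF_aF, ih]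

/-- The permutation `a` of the binary words. -/
def pa : Equiv.Perm (List Bool) := ⟨aF, aF, aF_aF, aF_aF⟩
/-- The permutations `b`, `c`, `d` of the binary words. -/
def pv (i : Fin 3) : Equiv.Perm (List Bool) := ⟨vF i, vF i, fun w => vF_vF w i, fun w => vF_vF w i⟩

/-- The first Grigorchuk group. -/
def Grig : Subgroup (Equiv.Perm (List Bool)) := Subgroup.closure {pa, pv 0, pv 1, pv 2}

/-- The group algebra `F₂[G]`. -/
abbrev F2G : Type := MonoidAlgebra (ZMod 2) Grig

/-! ## The covering group -/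

/-- Relators: `a², b², d², (bd)², (ad)⁴` with `a, b, d = 0, 1, 2`. -/
def rels : Set (FreeGroup (Fin 3)) :=
  {FreeGroup.of 0 * FreeGroup.of 0, FreeGroup.of 1 * FreeGroup.of 1,
    FreeGroup.of 2 * FreeGroup.of 2,
    FreeGroup.of 1 * FreeGroup.of 2 * (FreeGroup.of 1 * FreeGroup.of 2),
    (FreeGroup.of 0 * FreeGroup.of 2) ^ 4}

/-- The group `Λ = ⟨a, b, d | a², b², d², (bd)², (ad)⁴⟩`. -/
abbrev Lam : Type := PresentedGroup rels

/-- generators of `Λ`. -/
def la : Lam := PresentedGroup.of 0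
def lb : Lam := PresentedGroup.of 1
def ld : Lam := PresentedGroup.of 2
def lc : Lam := lb * ld

lemma la_la : la * la = 1 :=
  (PresentedGroup.one_of_mem (rels := rels) (x := FreeGroup.of 0 * FreeGroup.of 0) (by simp [rels]))
lemma lb_lb : lb * lb = 1 :=
  (PresentedGroup.one_of_mem (rels := rels) (x := FreeGroup.of 1 * FreeGroup.of 1) (by simp [rels]))
lemma ld_ld : ld * ld = 1 :=
  (PresentedGroup.one_of_mem (rels := rels) (x := FreeGroup.of 2 * FreeGroup.of 2) (by simp [rels]))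
lemma lbd_lbd : lb * ld * (lb * ld) = 1 :=
  (PresentedGroup.one_of_mem (rels := rels)
    (x := FreeGroup.of 1 * FreeGroup.of 2 * (FreeGroup.of 1 * FreeGroup.of 2)) (by simp [rels]))
lemma lad_pow : (la * ld) ^ 4 = 1 :=
  (PresentedGroup.one_of_mem (rels := rels)
    (x := (FreeGroup.of 0 * FreeGroup.of 2) ^ 4) (by simp [rels]))

lemma lb_ld : lb * ld = ld * lb := by
  have h := lbd_lbd
  have h1 := lb_lb
  have h2 := ld_ld
  calc lb * ld = (lb * ld) * (lb * ld) * (ld⁻¹ * lb⁻¹) := by group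
    _ = ld * lb := by
      rw [h, one_mul, inv_eq_of_mul_eq_one_left h2, inv_eq_of_mul_eq_one_left h1]

/-- A homomorphism out of `Λ`. -/
def lamLift {H : Type} [Group H] (a b d : H) (ha : a * a = 1) (hb : b * b = 1) (hd : d * d = 1)
    (hbd : b * d * (b * d) = 1) (had : (a * d) ^ 4 = 1) : Lam →* H :=
  PresentedGroup.toGroup (f := ![a, b, d]) (by
    intro r hr
    rcases hr with rfl | rfl | rfl | rfl | rfl <;> simp [ha, hb, hd, hbd, had])

section
variable {H : Type} [Group H] (a b d : H) (ha : a * a = 1) (hb : b * b = 1) (hd : d * d = 1)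
    (hbd : b * d * (b * d) = 1) (had : (a * d) ^ 4 = 1)

@[simp] lemma lamLift_la : lamLift a b d ha hb hd hbd had la = a := by
  simp [lamLift, la]
@[simp] lemma lamLift_lb : lamLift a b d ha hb hd hbd had lb = b := by
  simp [lamLift, lb]
@[simp] lemma lamLift_ld : lamLift a b d ha hb hd hbd had ld = d := by
  simp [lamLift, ld]
end

lemma lam_hom_ext {H : Type} [Group H] {f g : Lam →* H} (ha : f la = g la) (hb : f lb = g lb)
    (hd : f ld = g ld) : f = g := by
  apply PresentedGroup.ext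
  intro x
  fin_cases x
  · exact ha
  · exact hb
  · exact hd

/-- The wreath recursion `ψ : Λ → Λ ≀ C₂`, `a ↦ σ`, `b ↦ (a, c)`, `d ↦ (1, b)`. -/
def psi : Lam →* Wr Lam :=
  lamLift ⟨1, 1, true⟩ ⟨la, lc, false⟩ ⟨1, lb, false⟩
    (by ext <;> simp) (by ext <;> simp [la_la, lc, lbd_lbd]) (by ext <;> simp [lb_lb])
    (by
      have h : lc * lb = ld := by
        rw [lc, lb_ld, mul_assoc, lb_lb, mul_one]
      ext <;> simp [la_la, h, ld_ld])
    (by
      have h2 : ((⟨1, 1, true⟩ : Wr Lam) * ⟨1, lb, false⟩) ^ 2 = ⟨lb, lb, false⟩ := by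
        rw [pow_two]; ext <;> simp
      rw [show 4 = 2 * 2 from rfl, pow_mul, h2, pow_two]
      ext <;> simp [lb_lb])

@[simp] lemma psi_la : psi la = ⟨1, 1, true⟩ := by simp [psi]
@[simp] lemma psi_lb : psi lb = ⟨la, lc, false⟩ := by simp [psi]
@[simp] lemma psi_ld : psi ld = ⟨1, lb, false⟩ := by simp [psi]
@[simp] lemma psi_lc : psi lc = ⟨la, ld, false⟩ := by
  have h : lc * lb = ld := by
    rw [lc, lb_ld, mul_assoc, lb_lb, mul_one]
  rw [lc, map_mul, psi_lb, psi_ld]
  ext <;> simp [h]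

lemma pa_pa : pa * pa = 1 := Equiv.ext aF_aF
lemma pv_pv (i : Fin 3) : pv i * pv i = 1 := Equiv.ext fun w => vF_vF w i

lemma pv0_pv2 : pv 0 * pv 2 = pv 1 ∧ pv 1 * pv 0 = pv 2 ∧ pv 2 * pv 1 = pv 0 := by
  have key : ∀ w : List Bool, vF 0 (vF 2 w) = vF 1 w ∧ vF 1 (vF 0 w) = vF 2 w ∧
      vF 2 (vF 1 w) = vF 0 w := by
    intro w
    induction w with
    | nil => simp [vF]
    | cons c w ih =>
      obtain ⟨h1, h2, h3⟩ := ih
      cases c <;> simp [vF, aF_aF, h1, h2, h3]
  exact ⟨Equiv.ext fun w => (key w).1, Equiv.ext fun w => (key w).2.1,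
    Equiv.ext fun w => (key w).2.2⟩

lemma pa_pv2_pow : (pa * pv 2) ^ 4 = 1 := by
  have key : ∀ w : List Bool, ((pa * pv 2) ^ 4) w = w := by
    intro w
    show aF (vF 2 (aF (vF 2 (aF (vF 2 (aF (vF 2 w))))))) = w
    rcases w with _ | ⟨c, w⟩
    · simp [vF, aF]
    · cases c <;> simp [vF, aF, vF_vF]
  exact Equiv.ext key

/-- The projection `π : Λ → Sym(binary words)`. -/
def pi0 : Lam →* Equiv.Perm (List Bool) :=
  lamLift pa (pv 0) (pv 2) pa_pa (pv_pv 0) (pv_pv 2)
    (by rw [pv0_pv2.1, pv_pv]) pa_pv2_pow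

@[simp] lemma pi0_la : pi0 la = pa := by simp [pi0]
@[simp] lemma pi0_lb : pi0 lb = pv 0 := by simp [pi0]
@[simp] lemma pi0_ld : pi0 ld = pv 2 := by simp [pi0]
@[simp] lemma pi0_lc : pi0 lc = pv 1 := by rw [lc, map_mul, pi0_lb, pi0_ld, pv0_pv2.1]

lemma act_psi : (Wr.act pi0).comp psi = pi0 := by
  apply lam_hom_ext
  · ext1 w
    rcases w with _ | ⟨c, w⟩
    · simp [pa, aF]
    · cases c <;> simp [pa, aF]
  · ext1 w
    rcases w with _ | ⟨c, w⟩
    · simp [pv, vF]
    · cases c <;> simp [pa, pv, vF]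
  · ext1 w
    rcases w with _ | ⟨c, w⟩
    · simp [pv, vF]
    · cases c <;> simp [pa, pv, vF]

lemma range_pi0 : pi0.range = Grig := by
  apply le_antisymm
  · rintro _ ⟨w, rfl⟩
    have h0 : pa ∈ Grig := Subgroup.subset_closure (by simp)
    have h1 : pv 0 ∈ Grig := Subgroup.subset_closure (by simp)
    have h2 : pv 2 ∈ Grig := Subgroup.subset_closure (by simp)
    induction w using PresentedGroup.induction_on with
    | _ z =>
      induction z using FreeGroup.induction_on with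
      | C1 => simp
      | of x =>
        fin_cases x
        · exact (pi0_la.symm ▸ h0 : pi0 la ∈ Grig)
        · exact (pi0_lb.symm ▸ h1 : pi0 lb ∈ Grig)
        · exact (pi0_ld.symm ▸ h2 : pi0 ld ∈ Grig)
      | inv_of x hx => simpa using inv_mem hx
      | mul x y hx hy => simpa using mul_mem hx hy
  · rw [Grig, Subgroup.closure_le]
    rintro x (rfl | rfl | rfl | rfl)
    · exact ⟨la, pi0_la⟩
    · exact ⟨lb, pi0_lb⟩
    · exact ⟨lc, pi0_lc⟩
    · exact ⟨ld, pi0_ld⟩

/-- The iterated wreath products `W_n = Λ ≀ C₂ ≀ ⋯ ≀ C₂`. -/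
def W : ℕ → Type
  | 0 => Lam
  | n + 1 => Wr (W n)

instance instGroupW : ∀ n, Group (W n)
  | 0 => inferInstanceAs (Group Lam)
  | n + 1 => @Wr.instGroup _ (instGroupW n)

/-- `ψ_n : Λ → W_n`. -/
def psiN : ∀ n, Lam →* W n
  | 0 => MonoidHom.id Lam
  | n + 1 => (Wr.map (psiN n)).comp psi

/-- The action of `W_n` on words. -/
def alN : ∀ n, W n →* Equiv.Perm (List Bool)
  | 0 => pi0
  | n + 1 => Wr.act (alN n)

lemma act_map {A B : Type} [Group A] [Group B] (f : A →* B) (α : B →* Equiv.Perm (List Bool))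
    (g : Wr A) : Wr.act α (Wr.map f g) = Wr.act (α.comp f) g := by
  ext1 w
  rcases w with _ | ⟨c, w⟩
  · rfl
  · rcases g with ⟨x, y, _ | _⟩ <;> cases c <;> simp

lemma alN_psiN (n : ℕ) : (alN n).comp (psiN n) = pi0 := by
  induction n with
  | zero => rfl
  | succ n ih =>
    refine MonoidHom.ext fun w => ?_
    have h := act_map (psiN n) (alN n) (psi w)
    show Wr.act (alN n) (Wr.map (psiN n) (psi w)) = pi0 w
    rw [h, ih]
    exact DFunLike.congr_fun act_psi w

lemma alN_psiN_apply (n : ℕ) (w : Lam) : alN n (psiN n w) = pi0 w :=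
  DFunLike.congr_fun (alN_psiN n) w

/-! ## The free subgroup `L` -/

/-- `t₁ = b · aba`, `t₂ = b · (ada)b(ada)`, `t₃ = b · d(aba)d`. -/
def lt (i : Fin 3) : Lam :=
  ![lb * (la * lb * la), lb * (la * ld * la * lb * (la * ld * la)),
    lb * (ld * (la * lb * la) * ld)] i

/-- `F₃ → Λ`. -/
def jL : FreeGroup (Fin 3) →* Lam := FreeGroup.lift lt

/-- The subgroup `L` of `Λ`. -/
def LL : Subgroup Lam := jL.range

/-- Products of `2^n` copies of the free group of rank `3`. -/
def PT : ℕ → Type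
  | 0 => FreeGroup (Fin 3)
  | n + 1 => PT n × PT n

instance instGroupPT : ∀ n, Group (PT n)
  | 0 => inferInstanceAs (Group (FreeGroup (Fin 3)))
  | n + 1 => @Prod.instGroup _ _ (instGroupPT n) (instGroupPT n)

/-- `A × B → (A × B) ⋊ C₂`. -/
def Wr.base {C A : Type} [Group C] [Group A] (f : C →* A) : C × C →* Wr A where
  toFun x := ⟨f x.1, f x.2, false⟩
  map_one' := by ext <;> simp
  map_mul' x y := by ext <;> simp

@[simp] lemma Wr.base_l {C A : Type} [Group C] [Group A] (f : C →* A) (x : C × C) :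
    (Wr.base f x).l = f x.1 := rfl
@[simp] lemma Wr.base_r {C A : Type} [Group C] [Group A] (f : C →* A) (x : C × C) :
    (Wr.base f x).r = f x.2 := rfl
@[simp] lemma Wr.base_s {C A : Type} [Group C] [Group A] (f : C →* A) (x : C × C) :
    (Wr.base f x).s = false := rfl

/-- The embedding of `L^(2^n)` in `W_n`. -/
def iPT : ∀ n, PT n →* W n
  | 0 => jL
  | n + 1 => Wr.base (iPT n)

/-- The homomorphism `ψ_n(Λ) → G`. -/
def rhoN (n : ℕ) : (psiN n).range →* Grig :=
  ((alN n).comp (psiN n).range.subtype).codRestrict Grig (by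
    rintro ⟨_, w, rfl⟩
    show alN n (psiN n w) ∈ Grig
    rw [alN_psiN_apply, ← range_pi0]
    exact ⟨w, rfl⟩)

end KG
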