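import Pool.Agent.Lib.MP_ea1188_al.KG.Defs

/-! # Interfaces for the upper bound (parts (A) and (C)); MP_ea1188_al, helper60. -/

set_option autoImplicit false

namespace KG

open Matrix

/-! ## Abstract K-theory data over a fixed ring -/

/-- `unit`: the theory `K₁` (invertible matrices); `idem`: the theory `K₀` (idempotent matrices). -/
inductive Kind
  | unit
  | idem

/-- Units or idempotents of a ring. -/
def P (κ : Kind) {A : Type} [Ring A] (x : A) : Prop :=
  match κ with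
  | .unit => IsUnit x
  | .idem => x * x = x

lemma P_map {κ : Kind} {A B : Type} [Ring A] [Ring B] (f : A →+* B) {x : A} (h : P κ x) :
    P κ (f x) := by
  cases κ with
  | unit => exact IsUnit.map f h
  | idem =>
    have h' : x * x = x := h
    show f x * f x = f x
    rw [← map_mul, h']

lemma P_mapMatrix {κ : Kind} {A B : Type} [Ring A] [Ring B] (f : A →+* B) {ι : Type} [Fintype ι]
    [DecidableEq ι] {x : Matrix ι ι A} (h : P κ x) : P κ (x.map f) :=
  P_map f.mapMatrix h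

/-- The certificate that `V₀ + t V₁` is invertible with linear inverse, resp. idempotent. -/
def LinC (κ : Kind) {A : Type} [Ring A] (V0 V1 : A) : Prop :=
  match κ with
  | .unit => ∃ W0 W1 : A, V0 * W0 = 1 ∧ W0 * V0 = 1 ∧ V0 * W1 + V1 * W0 = 0 ∧
      W0 * V1 + W1 * V0 = 0 ∧ V1 * W1 = 0 ∧ W1 * V1 = 0
  | .idem => V0 * V0 = V0 ∧ V0 * V1 + V1 * V0 = V1 ∧ V1 * V1 = 0

/-- A K-theory datum over the ring `R`: a class in an abelian group for every invertible
(resp. idempotent) square matrix, with conjugation invariance and additivity. -/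
structure KT (κ : Kind) (R : Type) [Ring R] where
  K : Type
  inst : AddCommGroup K
  cls : ∀ {ι : Type} [Fintype ι] [DecidableEq ι], Matrix ι ι R → K
  conj : ∀ {ι : Type} [Fintype ι] [DecidableEq ι] (g h M : Matrix ι ι R),
    g * h = 1 → h * g = 1 → P κ M → cls (g * M * h) = cls M
  tri : ∀ {ι ι' : Type} [Fintype ι] [DecidableEq ι] [Fintype ι'] [DecidableEq ι']
    (A : Matrix ι ι R) (B : Matrix ι ι' R) (D : Matrix ι' ι' R),
    P κ A → P κ D → P κ (fromBlocks A B 0 D) → cls (fromBlocks A B 0 D) = cls A + cls D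
  rein : ∀ {ι ι' : Type} [Fintype ι] [DecidableEq ι] [Fintype ι'] [DecidableEq ι']
    (e : ι ≃ ι') (M : Matrix ι ι R), P κ M → cls (Matrix.reindex e e M) = cls M
  lin : ∀ {ι : Type} [Fintype ι] [DecidableEq ι] (V0 V1 : Matrix ι ι R),
    LinC κ V0 V1 → (2 : ℕ) • cls (V0 + V1) = (2 : ℕ) • cls V0

attribute [instance] KT.inst

/-- The algebra homomorphism `F₂[Γ] → R` given by a homomorphism from `Γ` to the monoid `R`. -/
noncomputable def lft {Γ R : Type} [Group Γ] [Ring R] [Algebra (ZMod 2) R] (ρ : Γ →* R) :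
    MonoidAlgebra (ZMod 2) Γ →+* R :=
  (MonoidAlgebra.lift (ZMod 2) R Γ ρ).toRingHom

/-- Two homomorphisms `Γ → R` induce the same map on classes up to `2`-power torsion. -/
def Rel {κ : Kind} {R : Type} [Ring R] [Algebra (ZMod 2) R] (T : KT κ R) {Γ : Type} [Group Γ]
    (ρ ρ' : Γ →* R) : Prop :=
  ∀ (ι : Type) [Fintype ι] [DecidableEq ι] (x : Matrix ι ι (MonoidAlgebra (ZMod 2) Γ)), P κ x →
    ∃ M : ℕ, (2 ^ M : ℕ) • T.cls (x.map (lft ρ)) = (2 ^ M : ℕ) • T.cls (x.map (lft ρ'))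

/-- `ρ` induces the same map on classes as the trivial homomorphism, up to `2`-power torsion. -/
def Tame {κ : Kind} {R : Type} [Ring R] [Algebra (ZMod 2) R] (T : KT κ R) {Γ : Type} [Group Γ]
    (ρ : Γ →* R) : Prop := Rel T ρ 1

/-- The free generators of `PT n` have unipotent images. -/
def UG {R : Type} [Ring R] : ∀ n, (PT n →* R) → Prop
  | 0, ρ => ∀ i : Fin 3, IsNilpotent (ρ (FreeGroup.of i : FreeGroup (Fin 3)) - 1)
  | n + 1, ρ => UG n (ρ.comp (MonoidHom.inl (PT n) (PT n))) ∧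
      UG n (ρ.comp (MonoidHom.inr (PT n) (PT n)))

/-- The free generators of `PT n` have images of order dividing `8`. -/
def Ord8 {H : Type} [Group H] : ∀ n, (PT n →* H) → Prop
  | 0, ρ => ∀ i : Fin 3, ρ (FreeGroup.of i : FreeGroup (Fin 3)) ^ 8 = 1
  | n + 1, ρ => Ord8 n (ρ.comp (MonoidHom.inl (PT n) (PT n))) ∧
      Ord8 n (ρ.comp (MonoidHom.inr (PT n) (PT n)))

/-! ## Statements of the abstract modules -/

/-- [HOM] homotopy invariance up to `2`-power torsion. -/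
def HomotopyS : Prop :=
  ∀ (κ : Kind) (R : Type) [Ring R] [Algebra (ZMod 2) R] (T : KT κ R) (ι : Type) [Fintype ι]
    [DecidableEq ι] (x : Matrix ι ι (Polynomial R)), P κ x →
    ∃ M : ℕ, (2 ^ M : ℕ) • T.cls (x.map (Polynomial.eval 1)) =
      (2 ^ M : ℕ) • T.cls (x.map (Polynomial.eval 0))

/-- [FREE] a homomorphism from a product of free groups with unipotent images of the free
generators is tame. -/
def FreeS : Prop :=
  ∀ (κ : Kind) (R : Type) [Ring R] [Algebra (ZMod 2) R] (T : KT κ R) (n : ℕ) (ρ : PT n →* R),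
    UG n ρ → Tame T ρ

/-- [TRANS] tameness passes from a subgroup of index `2` to the group. -/
def TransferS : Prop :=
  ∀ (κ : Kind) (R : Type) [Ring R] [Algebra (ZMod 2) R] (T : KT κ R) (Γ : Type) [Group Γ]
    (H : Subgroup Γ), H.index = 2 → ∀ ρ : Γ →* R, Tame T (ρ.comp H.subtype) → Tame T ρ

/-- [CHAIN] tameness passes from a normal subgroup with finite `2`-group quotient to any
subgroup which contains it. -/
def ChainS : Prop :=
  ∀ (κ : Kind) (R : Type) [Ring R] [Algebra (ZMod 2) R] (T : KT κ R) (Γ : Type) [Group Γ]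
    (N : Subgroup Γ), N.Normal → N.FiniteIndex → (∀ x : Γ, ∃ k : ℕ, x ^ (2 ^ k) ∈ N) →
    ∀ ρ : Γ →* R, Tame T (ρ.comp N.subtype) → Tame T ρ

/-! ## Statements of the group theory modules -/

/-- [LFREE] -/
def LFreeS : Prop := Function.Injective jL

/-- [LNORM] `L` is normal and `Λ/L` is a finite `2`-group. -/
def LNormS : Prop := LL.Normal ∧ LL.FiniteIndex ∧ ∀ x : Lam, ∃ k : ℕ, x ^ (2 ^ k) ∈ LL

/-- [LBR] `L × 1` and `1 × L` are contained in `ψ(L)`. -/
def LBrS : Prop :=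
  ∀ x ∈ LL, (∃ y ∈ LL, psi y = ⟨x, 1, false⟩) ∧ ∃ y ∈ LL, psi y = ⟨1, x, false⟩

/-- [CONTR] contraction. -/
def ContrS : Prop := ∀ w : Lam, pi0 w = 1 → ∃ n, psiN n w = 1

/-- [ORD] -/
def OrdS : Prop := ∀ n, Ord8 n ((alN n).comp (iPT n))

/-- [PNORM] `P_n` is normal in `W_n` with finite `2`-group quotient. -/
def PNormS : Prop :=
  ∀ n, (iPT n).range.Normal ∧ (iPT n).range.FiniteIndex ∧
    ∀ x : W n, ∃ k : ℕ, x ^ (2 ^ k) ∈ (iPT n).range

/-- [PSUB] `P_n ≤ ψ_n(Λ)` and `PT n → W n` is injective. -/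
def PSubS : Prop := ∀ n, (iPT n).range ≤ (psiN n).range ∧ Function.Injective (iPT n)

/-- [LIFT] invertible and idempotent matrices over `F₂[G]` lift to `F₂[ψ_n(Λ)]` for large `n`. -/
def LiftS : Prop :=
  ∀ (κ : Kind) (ι : Type) [Fintype ι] [DecidableEq ι] (x : Matrix ι ι F2G), P κ x →
    ∃ (n : ℕ) (y : Matrix ι ι (MonoidAlgebra (ZMod 2) (psiN n).range)), P κ y ∧
      y.map (lft ((MonoidAlgebra.of (ZMod 2) Grig).comp (rhoN n))) = x

/-- [MAINAC] the abstract upper bound. -/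
def MainACS : Prop :=
  ∀ (κ : Kind) (T : KT κ F2G) (ι : Type) [Fintype ι] [DecidableEq ι] (x : Matrix ι ι F2G),
    P κ x → ∃ M : ℕ, (2 ^ M : ℕ) • T.cls x =
      (2 ^ M : ℕ) • T.cls ((x.map (lft (1 : Grig →* ZMod 2))).map (algebraMap (ZMod 2) F2G))

/-! ## The two K-theories -/

/-- The class in `K₁(R)` of an invertible `n × n` matrix. -/
noncomputable def k1of {R : Type} [Ring R] (n : ℕ) : GL (Fin n) R →* K1 R where
  toFun u := Abelianization.of (⟦⟨n, u⟩⟧ : GLinf R)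
  map_one' := by
    rw [← DirectLimit.one_def (G := fun n : ℕ => GL (Fin n) R)
      (f := fun n m h => stabHom R n m h) n, map_one]
  map_mul' u v := by
    rw [← DirectLimit.mul_def (G := fun n : ℕ => GL (Fin n) R)
      (f := fun n m h => stabHom R n m h), map_mul]

/-- [K1] the K-theory datum given by `K₁`. -/
def K1S : Prop :=
  ∀ (R : Type) [Ring R] [Algebra (ZMod 2) R],
    ∃ (T : KT .unit R) (φ : T.K →+ Additive (K1 R)),
      (∀ (n : ℕ) (u : GL (Fin n) R), φ (T.cls u.val) = Additive.ofMul (k1of n u)) ∧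
      (∀ (ι : Type) [Fintype ι] [DecidableEq ι] (M : Matrix ι ι (ZMod 2)), IsUnit M →
        T.cls (M.map (algebraMap (ZMod 2) R)) = 0)

/-- [K0] the K-theory datum given by `K₀`. -/
def K0S : Prop :=
  ∀ (R : Type) [Ring R] [Algebra (ZMod 2) R],
    ∃ (T : KT .idem R),
      (∀ (ι : Type) [Fintype ι] [DecidableEq ι] (M : Matrix ι ι (ZMod 2)), M * M = M →
        ∃ r : ℕ, T.cls (M.map (algebraMap (ZMod 2) R)) = r • T.cls (1 : Matrix Unit Unit R)) ∧
      (∀ (Q : Type) [AddCommGroup Q] [Module R Q] [Module.Finite R Q] [Module.Projective R Q],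
        ∃ (n : ℕ) (e : Matrix (Fin n) (Fin n) R), e * e = e ∧
          ∀ a b : ℕ, a • T.cls e = b • T.cls (1 : Matrix Unit Unit R) →
            ∃ s : ℕ, Nonempty (((Fin a → Q) × (Fin s → R)) ≃ₗ[R] (Fin (b + s) → R)))

/-- Part (A). -/
def PartA : Prop := ∀ x : K1 F2G, ∃ m : ℕ, x ^ (2 ^ m) = 1

/-- Part (C). -/
def PartC : Prop :=
  ∀ (Q : Type) [AddCommGroup Q] [Module F2G Q] [Module.Finite F2G Q] [Module.Projective F2G Q],
    ∃ m r s : ℕ, Nonempty (((Fin (2 ^ m) → Q) × (Fin s → F2G)) ≃ₗ[F2G] (Fin (2 ^ m * r + s) → F2G))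

/-! ## Assembly -/

lemma GLinf_exists (R : Type) [Ring R] (g : GLinf R) : ∃ n, ∃ u : GL (Fin n) R,
    (⟦⟨n, u⟩⟧ : GLinf R) = g := by
  induction g using DirectLimit.induction with
  | _ n u => exact ⟨n, u, rfl⟩

lemma K1_exists (R : Type) [Ring R] (x : K1 R) : ∃ n, ∃ u : GL (Fin n) R, k1of n u = x := by
  obtain ⟨g, rfl⟩ := QuotientGroup.mk_surjective (s := commutator (GLinf R)) x
  obtain ⟨n, u, rfl⟩ := GLinf_exists R g
  exact ⟨n, u, rfl⟩

theorem partA (h : MainACS) (h1 : K1S) : PartA := by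
  intro x
  obtain ⟨n, u, rfl⟩ := K1_exists _ x
  obtain ⟨T, φ, hφ, hf⟩ := h1 F2G
  obtain ⟨M, hM⟩ := h .unit T (Fin n) u.val u.isUnit
  refine ⟨M, ?_⟩
  have h2 : IsUnit (u.val.map (lft (1 : Grig →* ZMod 2))) :=
    P_mapMatrix (κ := .unit) (lft (1 : Grig →* ZMod 2)) u.isUnit
  rw [hf _ _ h2, smul_zero] at hM
  have h3 := congrArg φ hM
  rw [map_nsmul, hφ, map_zero] at h3
  rw [← ofMul_pow] at h3
  exact Additive.ofMul.injective h3

theorem partC (h : MainACS) (h0 : K0S) : PartC := by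
  intro Q _ _ _ _
  obtain ⟨T, hf, hQ⟩ := h0 F2G
  obtain ⟨n, e, he, hab⟩ := hQ Q
  obtain ⟨M, hM⟩ := h .idem T (Fin n) e he
  have h2 : e.map (lft (1 : Grig →* ZMod 2)) * e.map (lft (1 : Grig →* ZMod 2)) =
      e.map (lft (1 : Grig →* ZMod 2)) :=
    P_mapMatrix (κ := .idem) (lft (1 : Grig →* ZMod 2)) he
  obtain ⟨r, hr⟩ := hf _ _ h2
  rw [hr, ← mul_smul] at hM
  obtain ⟨s, hs⟩ := hab _ _ hM
  exact ⟨M, r, s, hs⟩

end KG
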