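import Pool.Agent.Lib.MP_ea1188_al.KG.Iface

/-! # Interfaces for the lower bound (part (B)); MP_ea1188_al, helper60. -/

set_option autoImplicit false

namespace KG

open Matrix DirectSum

/-! ## Main statements -/

/-- The elements divisible by every power of `2`. -/
def ulm (A : Type) [CommGroup A] : Subgroup A :=
  ⨅ n : ℕ, (powMonoidHom (2 ^ n) : A →* A).range

/-- Part (B). -/
def PartB : Prop :=
  Nonempty ((K1 F2G ⧸ ulm (K1 F2G)) ≃* Multiplicative (⨁ p : ℕ × ℕ, ZMod (2 ^ (p.1 + 1))))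

/-- [PRU] A countable abelian `2`-group without elements of infinite height and with enough
characters is a direct sum of cyclic groups, each order `2^(k+1)` infinitely often. -/
def PruS : Prop :=
  ∀ (A : Type) [AddCommGroup A] [Countable A],
    (∀ x : A, ∃ m : ℕ, (2 ^ m : ℕ) • x = 0) →
    (∀ x : A, (∀ n : ℕ, ∃ y : A, (2 ^ n : ℕ) • y = x) → x = 0) →
    (∀ k J : ℕ, ∃ (e : Fin J → A) (B : Fin J → Type) (_ : ∀ i, AddCommGroup (B i))
      (χ : ∀ i, A →+ B i), (∀ i, ∃ y, (2 ^ k : ℕ) • y = e i) ∧ (∀ i, (2 : ℕ) • e i = 0) ∧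
        (∀ i x, χ i ((2 ^ (k + 1) : ℕ) • x) = 0) ∧ (∀ i j, i ≠ j → χ i (e j) = 0) ∧
        ∀ i, χ i (e i) ≠ 0) →
    Nonempty (A ≃+ ⨁ p : ℕ × ℕ, ZMod (2 ^ (p.1 + 1)))

/-- [COUNT] -/
def CountS : Prop := ∀ (R : Type) [Ring R] [Countable R], Countable (K1 R)

/-! ## Functoriality of `K₁` and classes of units -/

/-- The class in `K₁(R)` of a unit of `R`. -/
noncomputable def k1u (R : Type) [Ring R] : Rˣ →* K1 R :=
  (k1of 1).comp (Units.map (Matrix.scalar (Fin 1)).toMonoidHom)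

lemma stab_map {R S : Type} [Ring R] [Ring S] (f : R →+* S) {n m : ℕ} (h : n ≤ m)
    (M : Matrix (Fin n) (Fin n) R) : (stab h M).map f = stab h (M.map f) := by
  ext i j
  by_cases hi : (i : ℕ) < n ∧ (j : ℕ) < n
  · simp [stab, hi]
  · simp only [stab, Matrix.map_apply, dif_neg hi]
    split_ifs <;> simp

/-- `GL_n(f)`. -/
def glMap {R S : Type} [Ring R] [Ring S] (f : R →+* S) (n : ℕ) : GL (Fin n) R →* GL (Fin n) S :=
  Units.map f.mapMatrix.toMonoidHom

lemma glMap_stab {R S : Type} [Ring R] [Ring S] (f : R →+* S) {n m : ℕ} (h : n ≤ m)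
    (u : GL (Fin n) R) : glMap f m (stabHom R n m h u) = stabHom S n m h (glMap f n u) :=
  Units.ext (stab_map f h u.val)

/-- A compatible family of homomorphisms on the groups `GL_n(R)` with values in a commutative group
induces a homomorphism on `K₁(R)`. -/
noncomputable def k1Lift {R A : Type} [Ring R] [CommGroup A] (φ : ∀ n : ℕ, GL (Fin n) R →* A)
    (hφ : ∀ (n m : ℕ) (h : n ≤ m) (u : GL (Fin n) R), φ m (stabHom R n m h u) = φ n u) :
    K1 R →* A :=
  Abelianization.lift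
    { toFun := DirectLimit.lift _ (fun n u => φ n u) (fun n m h u => (hφ n m h u).symm)
      map_one' := DirectLimit.lift_one (G := fun n : ℕ => GL (Fin n) R)
        (f := fun n m h => stabHom R n m h) (C := A) φ (fun n m h u => (hφ n m h u).symm)
      map_mul' := DirectLimit.lift_mul (G := fun n : ℕ => GL (Fin n) R)
        (f := fun n m h => stabHom R n m h) (C := A) φ (fun n m h u => (hφ n m h u).symm) }

lemma k1Lift_k1of {R A : Type} [Ring R] [CommGroup A] (φ : ∀ n : ℕ, GL (Fin n) R →* A)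
    (hφ : ∀ (n m : ℕ) (h : n ≤ m) (u : GL (Fin n) R), φ m (stabHom R n m h u) = φ n u)
    (n : ℕ) (u : GL (Fin n) R) : k1Lift φ hφ (k1of n u) = φ n u := rfl

lemma k1of_stab {R : Type} [Ring R] {n m : ℕ} (h : n ≤ m) (u : GL (Fin n) R) :
    k1of m (stabHom R n m h u) = k1of n u := by
  have : (⟦⟨m, stabHom R n m h u⟩⟧ : GLinf R) = ⟦⟨n, u⟩⟧ :=
    (Quotient.sound ⟨m, le_refl m, h, by
      rw [DirectedSystem.map_self' (f := fun n m h => stabHom R n m h)]⟩)
  exact congrArg Abelianization.of this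

/-- `K₁(f)`. -/
noncomputable def k1map {R S : Type} [Ring R] [Ring S] (f : R →+* S) : K1 R →* K1 S :=
  k1Lift (fun n => (k1of n).comp (glMap f n)) (fun n m h u => by
    show k1of m (glMap f m (stabHom R n m h u)) = k1of n (glMap f n u)
    rw [glMap_stab, k1of_stab])

lemma k1map_k1u {R S : Type} [Ring R] [Ring S] (f : R →+* S) (u : Rˣ) :
    k1map f (k1u R u) = k1u S (Units.map f.toMonoidHom u) := by
  show k1of 1 (glMap f 1 (Units.map (Matrix.scalar (Fin 1)).toMonoidHom u)) =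
    k1of 1 (Units.map (Matrix.scalar (Fin 1)).toMonoidHom (Units.map f.toMonoidHom u))
  congr 1
  apply Units.ext
  ext i j
  fin_cases i; fin_cases j
  simp [glMap]

/-! ## The characters `χ_z` -/

/-- The element `1 + (1+g)(1+h)` of `F₂[Γ]`. -/
noncomputable def yel {Γ : Type} [Group Γ] (g h : Γ) : MonoidAlgebra (ZMod 2) Γ :=
  1 + (1 + MonoidAlgebra.of (ZMod 2) Γ g) * (1 + MonoidAlgebra.of (ZMod 2) Γ h)

/-- [YEL] `1 + (1+g)(1+h)` is a unit of order dividing `2^k`. -/
def YelS : Prop :=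
  ∀ (Γ : Type) [Group Γ] (g h : Γ) (k : ℕ), g * h = h * g → g ^ (2 ^ k) = 1 → h ^ (2 ^ k) = 1 →
    yel g h ^ (2 ^ k) = 1

/-- [CHI] -/
def ChiS : Prop :=
  ∀ (Q : Type) [Group Q] [Finite Q] (z : Q) (N k : ℕ), z * z = 1 → z ≠ 1 →
    Nat.card (Subgroup.centralizer {z}) = 2 ^ N → k + 1 ≤ N → 1 ≤ k → (∀ w : Q, w ^ (2 ^ k) ≠ z) →
    ∃ χ : K1 (MonoidAlgebra (ZMod 2) Q) →* (ZMod (2 ^ (N + 1)))ˣ,
      (∀ x, χ x ^ (2 ^ k) = 1) ∧
      ∀ (g h : Q), g * h = h * g → g ^ (2 ^ k) = 1 → h ^ (2 ^ k) = 1 →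
        ∀ u : (MonoidAlgebra (ZMod 2) Q)ˣ, u.val = yel g h →
        ((∀ r s : ℕ, IsConj (g ^ r * h ^ s) z ↔ (r % 2 ^ k = 2 ^ (k - 1) ∧ s % 2 ^ k = 0)) →
          χ (k1u _ u) ^ (2 ^ (k - 1)) ≠ 1) ∧
        ((∀ r s : ℕ, ¬ IsConj (g ^ r * h ^ s) z) → χ (k1u _ u) = 1)

/-- [ELT] the elements of the Grigorchuk group. -/
def EltS : Prop :=
  ∀ k J : ℕ, 1 ≤ k → ∃ (Q : Type) (_ : Group Q) (_ : Finite Q) (q : Grig →* Q)
    (g h : Fin J → Grig) (N : Fin J → ℕ),
    (∀ j, g j * h j = h j * g j ∧ g j ^ (2 ^ k) = 1 ∧ h j ^ (2 ^ k) = 1) ∧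
    (∀ j, q (g j) ^ (2 ^ (k - 1)) ≠ 1) ∧
    (∀ j, Nat.card (Subgroup.centralizer {q (g j) ^ (2 ^ (k - 1))}) = 2 ^ N j ∧ k + 1 ≤ N j) ∧
    (∀ j (w : Q), w ^ (2 ^ k) ≠ q (g j) ^ (2 ^ (k - 1))) ∧
    (∀ j (r s : ℕ), IsConj (q (g j) ^ r * q (h j) ^ s) (q (g j) ^ (2 ^ (k - 1))) ↔
      (r % 2 ^ k = 2 ^ (k - 1) ∧ s % 2 ^ k = 0)) ∧
    (∀ i j, i ≠ j → ∀ r s : ℕ, ¬ IsConj (q (g j) ^ r * q (h j) ^ s) (q (g i) ^ (2 ^ (k - 1))))

/-! ## Assembly of (B) -/

lemma unit_of_pow {R : Type} [Ring R] {x : R} {n : ℕ} (h : x ^ (2 ^ n) = 1) :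
    ∃ u : Rˣ, u.val = x ∧ u ^ (2 ^ n) = 1 := by
  have h1 : x * x ^ (2 ^ n - 1) = 1 := by
    rw [← pow_succ', Nat.sub_add_cancel Nat.one_le_two_pow, h]
  have h2 : x ^ (2 ^ n - 1) * x = 1 := by
    rw [← pow_succ, Nat.sub_add_cancel Nat.one_le_two_pow, h]
  exact ⟨⟨x, x ^ (2 ^ n - 1), h1, h2⟩, rfl, Units.ext h⟩

theorem partB (hA : PartA) (hPru : PruS) (hCount : CountS) (hYel : YelS) (hChi : ChiS)
    (hElt : EltS) : PartB := by
  have hcK : Countable (K1 F2G) := by
    have hcG : Countable Grig := by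
      have : Countable Lam := by
        apply Function.Surjective.countable (f := PresentedGroup.mk rels)
        exact PresentedGroup.mk_surjective rels
      have : Countable pi0.range := (MonoidHom.rangeRestrict_surjective pi0).countable
      rw [range_pi0] at this
      exact this
    have : Countable F2G := by
      have : Function.Injective (fun x : F2G => x.coeff) := fun x y h => by
        cases x; cases y; simpa using h
      exact this.countable
    exact hCount F2G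
  -- the quotient
  set A := K1 F2G ⧸ ulm (K1 F2G) with hAdef
  have hcA : Countable (Additive A) :=
    Function.Surjective.countable (f := fun x : K1 F2G => Additive.ofMul (QuotientGroup.mk x : A))
      (fun x => by
        obtain ⟨y, hy⟩ := QuotientGroup.mk_surjective (Additive.toMul x)
        exact ⟨y, congrArg Additive.ofMul hy⟩)
  have hmem : ∀ x : K1 F2G, x ∈ ulm (K1 F2G) ↔ ∀ n : ℕ, ∃ y, y ^ (2 ^ n) = x := by
    intro x
    simp [ulm, Subgroup.mem_iInf]
  have key : Nonempty (Additive A ≃+ ⨁ p : ℕ × ℕ, ZMod (2 ^ (p.1 + 1))) := by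
    apply hPru
    · intro x
      obtain ⟨y, hy⟩ := QuotientGroup.mk_surjective (Additive.toMul x)
      obtain ⟨m, hm⟩ := hA y
      refine ⟨m, ?_⟩
      have : (Additive.toMul x) ^ (2 ^ m) = 1 := by
        rw [← hy, ← QuotientGroup.mk_pow, hm, QuotientGroup.mk_one]
      exact congrArg Additive.ofMul this
    · intro x hx
      obtain ⟨y, hy⟩ := QuotientGroup.mk_surjective (Additive.toMul x)
      have h1 : y ∈ ulm (K1 F2G) := by
        rw [hmem]
        intro n
        obtain ⟨z, hz⟩ := hx n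
        obtain ⟨w, hw⟩ := QuotientGroup.mk_surjective (Additive.toMul z)
        have h2 : (QuotientGroup.mk (w ^ (2 ^ n)) : A) = QuotientGroup.mk y := by
          rw [QuotientGroup.mk_pow, hw, hy]
          exact congrArg Additive.toMul hz
        rw [QuotientGroup.eq] at h2
        obtain ⟨v, hv⟩ := (hmem _).1 h2 n
        exact ⟨w * v, by rw [mul_pow, hv, mul_inv_cancel_left]⟩
      have h3 : Additive.toMul x = 1 := by
        rw [← hy]
        exact (QuotientGroup.eq_one_iff y).2 h1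
      exact congrArg Additive.ofMul h3
    · intro k J
      obtain ⟨Q, _, _, q, g, h, N, hgh, hz1, hN, hroot, hconj, hconj'⟩ := hElt (k + 1) J (by omega)
      simp only [Nat.add_sub_cancel] at hz1 hN hroot hconj hconj'
      have hz2 : ∀ j, (q (g j)) ^ (2 ^ k) * (q (g j)) ^ (2 ^ k) = 1 := by
        intro j
        rw [← pow_add, ← two_mul, ← pow_succ', ← map_pow, (hgh j).2.1, map_one]
      choose χ hχ1 hχ2 using fun j => hChi Q (q (g j) ^ (2 ^ k)) (N j) (k + 1) (hz2 j) (hz1 j)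
        (hN j).1 (hN j).2 (by omega) (hroot j)
      -- the units
      have hy : ∀ j, ∃ u : F2Gˣ, u.val = yel (g j) (h j) ∧ u ^ (2 ^ (k + 1)) = 1 := fun j =>
        unit_of_pow (hYel _ _ _ (k + 1) (hgh j).1 (hgh j).2.1 (hgh j).2.2)
      choose u hu1 hu2 using hy
      let qr : F2G →+* MonoidAlgebra (ZMod 2) Q :=
        (lft ((MonoidAlgebra.of (ZMod 2) Q).comp q) : F2G →+* _)
      let X : ∀ j, K1 F2G →* (ZMod (2 ^ (N j + 1)))ˣ := fun j => (χ j).comp (k1map qr)
      have hXu : ∀ i j, X i (k1u F2G (u j)) = χ i (k1u _ (Units.map qr.toMonoidHom (u j))) := by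
        intro i j
        show χ i (k1map qr (k1u F2G (u j))) = _
        rw [k1map_k1u]
      have huq : ∀ j, (Units.map qr.toMonoidHom (u j)).val = yel (q (g j)) (q (h j)) := by
        intro j
        show qr (u j).val = _
        rw [hu1]
        simp [yel, qr, lft]
      have hcomm : ∀ j, q (g j) * q (h j) = q (h j) * q (g j) := fun j => by
        rw [← map_mul, (hgh j).1, map_mul]
      have hqg : ∀ j, q (g j) ^ (2 ^ (k + 1)) = 1 := fun j => by
        rw [← map_pow, (hgh j).2.1, map_one]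
      have hqh : ∀ j, q (h j) ^ (2 ^ (k + 1)) = 1 := fun j => by
        rw [← map_pow, (hgh j).2.2, map_one]
      have hX1 : ∀ i x, X i x ^ (2 ^ (k + 1)) = 1 := fun i x => hχ1 i _
      have hX2 : ∀ i, X i (k1u F2G (u i)) ^ (2 ^ k) ≠ 1 := by
        intro i
        rw [hXu]
        exact (hχ2 i _ _ (hcomm i) (hqg i) (hqh i) _ (huq i)).1 (hconj i)
      have hX3 : ∀ i j, i ≠ j → X i (k1u F2G (u j)) = 1 := by
        intro i j hij
        rw [hXu]
        exact (hχ2 i _ _ (hcomm j) (hqg j) (hqh j) _ (huq j)).2 (hconj' i j hij)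
      have hXulm : ∀ i, ulm (K1 F2G) ≤ (X i).ker := by
        intro i x hx
        obtain ⟨y, hy⟩ := (hmem x).1 hx (k + 1)
        rw [MonoidHom.mem_ker, ← hy, map_pow, hX1]
      let Y : ∀ j, A →* (ZMod (2 ^ (N j + 1)))ˣ := fun j => QuotientGroup.lift _ (X j) (hXulm j)
      refine ⟨fun j => Additive.ofMul (QuotientGroup.mk (k1u F2G (u j) ^ (2 ^ k))),
        fun j => Additive (ZMod (2 ^ (N j + 1)))ˣ, fun j => inferInstance,
        fun j => MonoidHom.toAdditive (Y j), ?_, ?_, ?_, ?_, ?_⟩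
      · intro i
        exact ⟨Additive.ofMul (QuotientGroup.mk (k1u F2G (u i))), rfl⟩
      · intro i
        show Additive.ofMul ((QuotientGroup.mk (k1u F2G (u i) ^ (2 ^ k)) : A) ^ 2) = _
        rw [← QuotientGroup.mk_pow, ← pow_mul, ← pow_succ, ← map_pow, hu2, map_one]
        rfl
      · intro i x
        show Additive.ofMul (Y i ((Additive.toMul x) ^ (2 ^ (k + 1)))) = _
        rw [map_pow]
        obtain ⟨y, hy⟩ := QuotientGroup.mk_surjective (Additive.toMul x)
        rw [← hy]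
        show Additive.ofMul ((X i y) ^ (2 ^ (k + 1))) = _
        rw [hX1]
        rfl
      · intro i j hij
        show Additive.ofMul (X i (k1u F2G (u j) ^ (2 ^ k))) = _
        rw [map_pow, hX3 i j hij, one_pow]
        rfl
      · intro i hi
        apply hX2 i
        have h5 : Additive.ofMul (X i (k1u F2G (u i) ^ (2 ^ k))) = 0 := hi
        rw [map_pow] at h5
        exact congrArg Additive.toMul h5
  obtain ⟨e⟩ := key
  exact ⟨MulEquiv.toAdditive.symm (e.trans (AddEquiv.additiveMultiplicative _).symm)⟩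

end KG
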