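import Pool.Agent.Lib.MP_ea1188_al.KG.IfaceB

/-! # Sub-interfaces for the characters `χ_z` (statement `ChiS`); MP_ea1188_al, helper60. -/

set_option autoImplicit false

namespace KG

open Matrix

section
variable {Q : Type} [Group Q]

/-- The integral permutation representation on a finite `Q`-set. -/
noncomputable def prep (Q Y : Type) [Group Q] [MulAction Q Y] [Fintype Y] [DecidableEq Y] :
    MonoidAlgebra ℤ Q →+* Matrix Y Y ℤ :=
  (MonoidAlgebra.lift ℤ (Matrix Y Y ℤ) Q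
    { toFun := fun g => Matrix.of fun x y : Y => if x = g • y then (1 : ℤ) else 0
      map_one' := by
        ext x y
        simp [Matrix.one_apply]
      map_mul' := fun g h => by
        ext x y
        simp only [Matrix.of_apply, Matrix.mul_apply, mul_smul]
        rw [Finset.sum_eq_single (h • y)]
        · simp
        · intro b _ hb
          simp [hb]
        · simp }).toRingHom

/-- The matrix over `ℤ` by which a matrix over `ℤ[Q]` acts on copies of `ℤ[Y]`. -/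
noncomputable def bigM (Q Y : Type) [Group Q] [MulAction Q Y] [Fintype Y] [DecidableEq Y]
    {ι : Type} [Fintype ι] [DecidableEq ι] (X : Matrix ι ι (MonoidAlgebra ℤ Q)) :
    Matrix (ι × Y) (ι × Y) ℤ :=
  Matrix.comp ι ι Y Y ℤ (X.map (prep Q Y))

/-- The sum of the coefficients of the trace over the conjugacy class of `z`. -/
noncomputable def cz [Fintype Q] (z : Q) {ι : Type} [Fintype ι]
    (X : Matrix ι ι (MonoidAlgebra ℤ Q)) : ℤ := by
  classical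
  exact ∑ i, ∑ g ∈ Finset.univ.filter (fun g : Q => IsConj g z), (X i i).coeff g

end

/-- [EXPL] power series: `A'B - AB' = AB ∑ c_{j+1} t^j`. -/
def ExplS : Prop :=
  ∀ (A B : PowerSeries ℤ) (c : ℕ → ℤ), PowerSeries.constantCoeff A = 1 →
    PowerSeries.constantCoeff B = 1 →
    PowerSeries.derivativeFun A * B - A * PowerSeries.derivativeFun B =
      A * B * PowerSeries.mk (fun j => c (j + 1)) →
    (∀ a : ℕ, 1 ≤ a → (∀ j, 1 ≤ j → (2 : ℤ) ^ (a + padicValNat 2 j) ∣ c j) →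
      ∀ n, (2 : ℤ) ^ a ∣ PowerSeries.coeff n (A - B)) ∧
    (∀ a M : ℕ, 2 ≤ a → 1 ≤ M → (∀ j, 1 ≤ j → (2 : ℤ) ^ (a + padicValNat 2 j) ∣ c j) →
      (∀ j, 1 ≤ j → j ≠ M → (2 : ℤ) ^ (a + padicValNat 2 j + 1) ∣ c j) →
      (¬ (2 : ℤ) ^ (a + padicValNat 2 M + 1) ∣ c M) →
      ∀ n, (2 : ℤ) ^ (a + 1) ∣ PowerSeries.coeff n (A - B - (2 : PowerSeries ℤ) ^ a *
        (PowerSeries.X ^ M * B))) ∧
    ((∀ j, 1 ≤ j → c j = 0) → A = B)

/-- The polynomial `det(1 + tX)`. -/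
noncomputable def dPoly {ι : Type} [Fintype ι] [DecidableEq ι] (X : Matrix ι ι ℤ) : Polynomial ℤ :=
  Matrix.det ((1 : Matrix ι ι (Polynomial ℤ)) + (Polynomial.X : Polynomial ℤ) • X.map Polynomial.C)

/-- [DLOG] logarithmic derivative of `det(1 + tX)`. -/
def DlogS : Prop :=
  ∀ (ι : Type) [Fintype ι] [DecidableEq ι] (X : Matrix ι ι ℤ),
    PowerSeries.derivativeFun (dPoly X : PowerSeries ℤ) =
      (dPoly X : PowerSeries ℤ) * PowerSeries.mk (fun j => (-1) ^ j * Matrix.trace (X ^ (j + 1)))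

/-- [TRC] the virtual permutation character `2[Q/⟨z⟩] - [Q]`. -/
def TrcS : Prop :=
  ∀ (Q : Type) [Group Q] [Fintype Q] [DecidableEq Q] (z : Q) (N : ℕ) (_ : z * z = 1) (_ : z ≠ 1)
    [DecidableEq (Q ⧸ Subgroup.zpowers z)] [Fintype (Q ⧸ Subgroup.zpowers z)],
    Nat.card (Subgroup.centralizer {z}) = 2 ^ N →
    ∀ (ι : Type) [Fintype ι] [DecidableEq ι] (X : Matrix ι ι (MonoidAlgebra ℤ Q)),
      2 * Matrix.trace (bigM Q (Q ⧸ Subgroup.zpowers z) X) - Matrix.trace (bigM Q Q X) =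
        2 ^ N * cz z X

/-- [CYC] rotation of closed words. -/
def CycS : Prop :=
  ∀ (Q : Type) [Group Q] [Fintype Q] (z : Q) (k : ℕ), 1 ≤ k → (∀ w : Q, w ^ (2 ^ k) ≠ z) →
    ∀ (ι : Type) [Fintype ι] [DecidableEq ι] (X : Matrix ι ι (MonoidAlgebra ℤ Q)) (j : ℕ), 1 ≤ j →
      (2 : ℤ) ^ (padicValNat 2 j) ∣ 2 ^ (k - 1) * cz z (X ^ j)

/-- [EVC] the element `(1+g)(1+h)`. -/
def EvcS : Prop :=
  ∀ (Q : Type) [Group Q] [Fintype Q] (z : Q) (k : ℕ) (g h : Q), 1 ≤ k → g * h = h * g →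
    (∀ r s : ℕ, IsConj (g ^ r * h ^ s) z ↔ (r % 2 ^ k = 2 ^ (k - 1) ∧ s % 2 ^ k = 0)) →
    (∀ j : ℕ, 1 ≤ j → j ≠ 2 ^ (k - 1) → (2 : ℤ) ^ (padicValNat 2 j + 1) ∣ 2 ^ (k - 1) *
      cz z ((Matrix.of fun _ _ : Fin 1 => (1 + MonoidAlgebra.of ℤ Q g) *
        (1 + MonoidAlgebra.of ℤ Q h)) ^ j)) ∧
    cz z ((Matrix.of fun _ _ : Fin 1 => (1 + MonoidAlgebra.of ℤ Q g) *
        (1 + MonoidAlgebra.of ℤ Q h)) ^ (2 ^ (k - 1))) = 1

/-- [CHIASM] the assembly of the characters. -/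
def ChiAsmS : Prop := ExplS → DlogS → TrcS → CycS → EvcS → ChiS

end KG
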