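import Pool.Agent.Lib.MP_ea1188_al.KG.IfaceB

/-! # Sub-interfaces for the elements of the Grigorchuk group (statement `EltS`);
MP_ea1188_al, helper60. -/

set_option autoImplicit false

namespace KG

/-- The automorphism group of the binary tree of depth `n`. -/
def QQ : ℕ → Type
  | 0 => Unit
  | n + 1 => Wr (QQ n)

instance instGroupQQ : ∀ n, Group (QQ n)
  | 0 => inferInstanceAs (Group Unit)
  | n + 1 => @Wr.instGroup _ (instGroupQQ n)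

/-- `Λ → Q_n`. -/
def qN : ∀ n, Lam →* QQ n
  | 0 => 1
  | n + 1 => (Wr.map (qN n)).comp psi

/-- The number of moved leaves. -/
def mv : ∀ n, QQ n → ℕ
  | 0, _ => 0
  | n + 1, g => if Wr.s g then 2 ^ (n + 1) else mv n (Wr.l g) + mv n (Wr.r g)

/-- [QB] -/
def QBS : Prop := ∀ n, Finite (QQ n) ∧ ∃ m : ℕ, Nat.card (QQ n) = 2 ^ m

/-- [QFAC] `q_n` factors through the Grigorchuk group. -/
def QFacS : Prop := ∀ n, ∃ q : Grig →* QQ n, ∀ (w : Lam) (hw : pi0 w ∈ Grig), q ⟨pi0 w, hw⟩ = qN n w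

/-- [WRR] roots and conjugacy in `A ≀ C₂`. -/
def WrrS : Prop :=
  ∀ (A : Type) [Group A],
    (∀ (x : A) (j : ℕ), x ≠ 1 → (∃ w : Wr A, w ^ (2 ^ j) = ⟨x, 1, false⟩) →
      ∃ v : A, v ^ (2 ^ j) = x) ∧
    (∀ (x : A) (j : ℕ), x ≠ 1 → (∃ w : Wr A, w ^ (2 ^ j) = ⟨1, x, false⟩) →
      ∃ v : A, v ^ (2 ^ j) = x) ∧
    (∀ (x : A) (j : ℕ), (∃ w : Wr A, w ^ (2 ^ (j + 1)) = ⟨x, x, false⟩) →
      ∃ v : A, v ^ (2 ^ j) = x) ∧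
    (∀ x y : A, (∃ w : Wr A, w ^ 2 = ⟨x, y, false⟩) →
      ((∃ v : A, v ^ 2 = x) ∧ ∃ v : A, v ^ 2 = y) ∨ IsConj x y) ∧
    (∀ (x y : A), ¬ ∃ w : Wr A, w ^ 2 = ⟨x, y, true⟩) ∧
    (∀ x y x' y' : A, IsConj (⟨x, y, false⟩ : Wr A) ⟨x', y', false⟩ ↔
      (IsConj x x' ∧ IsConj y y') ∨ (IsConj x y' ∧ IsConj y x')) ∧
    (∀ (x y x' y' : A), ¬ IsConj (⟨x, y, false⟩ : Wr A) ⟨x', y', true⟩)

/-- [MV] -/
def MvS : Prop :=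
  ∀ n, (∀ x y : QQ n, IsConj x y → mv n x = mv n y) ∧ (∀ x : QQ n, mv n x = 0 ↔ x = 1) ∧
    ∀ w : Lam, 2 * mv n (qN n w) ≤ mv (n + 1) (qN (n + 1) w)

/-- [GAM] -/
def GamS : Prop :=
  ∀ k : ℕ, 1 ≤ k → ∃ γ ∈ LL, ∃ n0 : ℕ, pi0 γ ^ (2 ^ k) = 1 ∧
    ∀ n, n0 ≤ n → ∀ w : QQ n, w ^ (2 ^ k) ≠ qN n γ ^ (2 ^ (k - 1))

/-- [ELTASM] -/
def EltAsmS : Prop := LBrS → QBS → QFacS → WrrS → MvS → GamS → EltS

end KG
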